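import Pool.Agent.W2helper40.CH.Main

set_option autoImplicit false

/-!
# Exponentially many periodic continued fractions with partial quotients 1, 2 in one field

There is a constant `c > 0` such that for every large `l` some real quadratic field `K`, which depends
on `l`, contains at least `exp (c l)` purely periodic continued fractions with the partial quotients
`1` and `2` and periods of length at most `l`.

Proof. For a word `w` of length `2 k` in the letters `1, 2` the number `[w, w, …]` lies in the field of
`√(t ^ 2 - 4)`, `t` the trace of the matrix of `w`. With `β = 37 / 50` the numbers `κ(a, b) = a b + 1 +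
a β` satisfy `∑ 1 / κ(a, b) > 1.009` over the four pairs of letters, and the trace of `w` is at most
three times the product of the `κ` of its pairs of letters; so the sum of `1 / t` over the words is at
least `1.009 ^ k / 3`. (The Hausdorff dimension of the set of the numbers with partial quotients `1, 2`
is greater than `1 / 2`.) The sum of `1 / t` over the integers `t ≤ 3 * 7 ^ k` is `O(k)`. So many words
have the same trace, and the numbers `[w, w, …]` are different for different words of the same length.
-/

namespace Pool.Agent.Results.MP_277ac5_nt.OneFieldPerLength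

/-- `[a_0, …, a_m, x]`, where `w` is the list `a_0, …, a_m`. -/
noncomputable def ev (w : List ℕ) (x : ℝ) : ℝ := w.foldr (fun a y => a + 1 / y) x

/-- The purely periodic continued fractions `x` in the field `ℚ(√d)` with a period `w = (a_0, …, a_m)`
of length `m + 1 ≤ l` and partial quotients `1 ≤ a_j ≤ A`: the real numbers `x > 1` with
`x = [a_0, …, a_m, x]`. -/
def PurelyPeriodic (d A l : ℕ) : Set ℝ :=
  {x | 1 < x ∧ (∃ a b : ℚ, x = a + b * √(d : ℝ)) ∧
    ∃ w : List ℕ, w ≠ [] ∧ w.length ≤ l ∧ (∀ a ∈ w, 1 ≤ a ∧ a ≤ A) ∧ ev w x = x}

/-- There are `c > 0` and `L` such that for every `l ≥ L` there is a `d`, not a square, such that the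
field `ℚ(√d)` contains at least `exp (c l)` purely periodic continued fractions with partial
quotients at most `2` and a period of length at most `l`. -/
theorem result : ∃ c : ℝ, 0 < c ∧ ∃ L : ℕ, ∀ l : ℕ, L ≤ l → ∃ d : ℕ, ¬ IsSquare d ∧
    ∃ S : Finset ℝ, (S : Set ℝ) ⊆ PurelyPeriodic d 2 l ∧ Real.exp (c * l) ≤ S.card := by
  obtain ⟨c, hc, L, h⟩ := Pool.Agent.W2helper40.CH.main
  refine ⟨c, hc, L, fun l hl => ?_⟩
  obtain ⟨d, hd, S, hS, hx⟩ := h l hl
  exact ⟨d, hd, S, fun x hxS => hx x hxS, hS⟩

end Pool.Agent.Results.MP_277ac5_nt.OneFieldPerLength
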